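import Mathlib

set_option autoImplicit false

namespace Pool.Agent.Results.MP_69f3e4_an.Dichotomy

open Set Filter Topology

def E (v : ℕ → ℝ × ℝ) : Set (ℝ × ℝ) :=
  {s | ∃ ε : ℕ → Bool, s = ∑' n, if ε n = true then v n else 0}

lemma sm (v : ℕ → ℝ × ℝ) (hv : Summable fun n => ‖v n‖) (ε : ℕ → Bool) :
    ∀ n, ‖if ε n = true then v n else 0‖ ≤ ‖v n‖ := fun n => by
  split_ifs
  · exact le_rfl
  · simp

lemma closed (v : ℕ → ℝ × ℝ) (hv : Summable fun n => ‖v n‖) : IsClosed (E v) := by
  have hc : Continuous fun ε : ℕ → Bool => ∑' i, (if ε i = true then v i else 0) :=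
    continuous_tsum (fun i => (continuous_of_discreteTopology
      (f := fun t : Bool => if t = true then v i else 0)).comp (continuous_apply i)) hv
      fun i ε => sm v hv ε i
  have e : E v = range fun ε : ℕ → Bool => ∑' i, (if ε i = true then v i else 0) :=
    Set.ext fun s => ⟨fun ⟨ε, h⟩ => ⟨ε, h.symm⟩, fun ⟨ε, h⟩ => ⟨ε, h.symm⟩⟩
  rw [e]
  exact (isCompact_range hc).isClosed

lemma split (v : ℕ → ℝ × ℝ) (hv : Summable fun n => ‖v n‖) (ε : ℕ → Bool) (n : ℕ) :
    ∑' i, (if ε i = true then v i else 0) =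
      ∑ i ∈ Finset.range n, (if ε i = true then v i else 0) +
        ∑' i, (if ε (i + n) = true then v (i + n) else 0) :=
  ((Summable.of_norm_bounded hv (sm v hv ε)).sum_add_tsum_nat_add n).symm

lemma glue (v : ℕ → ℝ × ℝ) (hv : Summable fun n => ‖v n‖) (ε : ℕ → Bool) (n : ℕ) (t : ℝ × ℝ)
    (ht : t ∈ E fun i => v (i + n)) :
    ∑ i ∈ Finset.range n, (if ε i = true then v i else 0) + t ∈ E v := by
  obtain ⟨η, rfl⟩ := ht
  refine ⟨fun i => if i < n then ε i else η (i - n), ?_⟩
  rw [split v hv _ n]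
  congr 1
  · exact Finset.sum_congr rfl fun i hi => by rw [if_pos (Finset.mem_range.mp hi)]
  · exact tsum_congr fun i => by simp

theorem result (v : ℕ → ℝ × ℝ) (hv : Summable fun n => ‖v n‖) :
    E v = closure (interior (E v)) ∨ interior (closure (E v)) = ∅ := by
  rw [(closed v hv).closure_eq, or_iff_not_imp_right]
  intro hne
  refine Subset.antisymm ?_ (closure_minimal interior_subset (closed v hv))
  rintro _ ⟨ε, rfl⟩
  rw [Metric.mem_closure_iff]
  intro δ hδ
  obtain ⟨n, hn⟩ := ((tendsto_sum_nat_add fun i => ‖v i‖).eventually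
    (gt_mem_nhds (half_pos hδ))).exists
  have hvn : Summable fun i => ‖v (i + n)‖ := (summable_nat_add_iff n).mpr hv
  have bd : ∀ t ∈ E fun i => v (i + n), ‖t‖ < δ / 2 := by
    rintro _ ⟨η, rfl⟩
    exact lt_of_le_of_lt (tsum_of_norm_bounded hvn.hasSum (sm _ hvn η)) hn
  have hint : (interior (E fun i => v (i + n))).Nonempty := by
    by_contra h0
    rw [not_nonempty_iff_eq_empty] at h0
    have hd := dense_iInter_of_isOpen (f := fun p : Fin n → Bool =>
      {z : ℝ × ℝ | z - ∑ i : Fin n, (if p i = true then v i else 0) ∈ E fun i => v (i + n)}ᶜ)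
      (fun p => ((closed _ hvn).preimage (by fun_prop)).isOpen_compl) (fun p => by
        rw [← interior_eq_empty_iff_dense_compl]
        have := (Homeomorph.subRight (∑ i : Fin n, (if p i = true then v i else 0))
          ).preimage_interior (E fun i => v (i + n))
        rw [h0, preimage_empty] at this
        exact this.symm)
    obtain ⟨z, hz1, hz2⟩ := hd.exists_mem_open isOpen_interior (nonempty_iff_ne_empty.mpr hne)
    obtain ⟨η, rfl⟩ := interior_subset hz2
    refine mem_iInter.mp hz1 (fun i => η i) ⟨fun i => η (i + n), ?_⟩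
    rw [split v hv η n, Finset.sum_range, add_sub_cancel_left]
  obtain ⟨t, ht⟩ := hint
  refine ⟨∑ i ∈ Finset.range n, (if ε i = true then v i else 0) + t, ?_, ?_⟩
  · have h1 := (Homeomorph.addLeft (∑ i ∈ Finset.range n, (if ε i = true then v i else 0))
      ).image_interior (E fun i => v (i + n))
    refine interior_mono ?_ (h1 ▸ mem_image_of_mem _ ht)
    rintro _ ⟨u, hu, rfl⟩
    exact glue v hv ε n u hu
  · rw [split v hv ε n, dist_add_left]
    have a1 := bd t (interior_subset ht)
    have a2 := bd _ ⟨fun i => ε (i + n), rfl⟩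
    linarith [dist_le_norm_add_norm (∑' i, (if ε (i + n) = true then v (i + n) else 0)) t]

end Pool.Agent.Results.MP_69f3e4_an.Dichotomy
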